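import Pool.Agent.MWHP.StmtsF

/-!
# MWH row ALL: the exchange of the two blocks gives all transitions
-/

set_option autoImplicit false

namespace Pool.Agent.MWHP.H48A

open Pool.Agent.Helper14_MV Pool.Agent.Helper2_MV Pool.Agent.MVO Pool.Agent.MWL Pool.Agent.MWS
  Pool.Agent.MWH


open Pool.Agent.MWH

variable {n : ℕ}

theorem bef_cons {l : List ℕ} {c x y : ℕ} (h : c ≠ y) : Bef (c :: l) x y ↔ Bef l x y := by
  constructor
  · intro hb P Q hl
    exact hb (c :: P) Q (by rw [hl]; rfl)
  · intro hb P Q hl
    cases P with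
    | nil =>
      simp only [List.nil_append, List.cons.injEq] at hl
      exact absurd hl.1 h
    | cons d P =>
      simp only [List.cons_append, List.cons.injEq] at hl
      exact hb P Q hl.2

theorem not_bef_cons {l : List ℕ} {x y : ℕ} (h : x ∈ l) : ¬ Bef (y :: l) x y :=
  fun hb => hb [] l rfl h

theorem bef_snoc {l : List ℕ} {c x y : ℕ} (h : c ≠ x) : Bef (l ++ [c]) x y ↔ Bef l x y := by
  constructor
  · intro hb P Q hl hx
    refine hb P (Q ++ [c]) ?_ (List.mem_append_left _ hx)
    rw [hl]
    simp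
  · intro hb P Q hl hx
    rcases List.eq_nil_or_concat Q with rfl | ⟨Q', d, rfl⟩
    · simp at hx
    · have h1 : l ++ [c] = (P ++ y :: Q') ++ [d] := by
        rw [hl]
        simp
      obtain ⟨h2, h3⟩ := List.append_inj' h1 rfl
      have h4 : c = d := by simpa using h3
      rw [List.concat_eq_append] at hx
      rcases List.mem_append.1 hx with h5 | h5
      · exact hb P Q' h2 h5
      · have h6 : x = d := by simpa using h5
        exact h (h4.trans h6.symm)

theorem not_bef_snoc {l : List ℕ} {x y : ℕ} (h : y ∈ l) : ¬ Bef (l ++ [x]) x y := by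
  intro hb
  obtain ⟨P, Q, rfl⟩ := List.append_of_mem h
  exact hb P (Q ++ [x]) (by simp) (by simp)

theorem bef_rep {l : List ℕ} {c x y : ℕ} (h : c ≠ y) (m : ℕ) :
    Bef (List.replicate m c ++ l) x y ↔ Bef l x y := by
  induction m with
  | zero => rfl
  | succ m ih => rw [List.replicate_succ, List.cons_append, bef_cons h, ih]

theorem bef_rep' {l : List ℕ} {c x y : ℕ} (h : c ≠ x) (m : ℕ) :
    Bef (l ++ List.replicate m c) x y ↔ Bef l x y := by
  induction m with
  | zero => rw [List.replicate_zero, List.append_nil]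
  | succ m ih => rw [List.replicate_succ', ← List.append_assoc, bef_snoc h, ih]

theorem not_bef_rep {l : List ℕ} {x y m : ℕ} (hm : 1 ≤ m) (h : x ∈ l) :
    ¬ Bef (List.replicate m y ++ l) x y := by
  obtain ⟨r, rfl⟩ := Nat.exists_eq_add_of_le hm
  rw [Nat.add_comm, List.replicate_succ, List.cons_append]
  exact not_bef_cons (List.mem_append_right _ h)

theorem not_bef_rep' {l : List ℕ} {x y m : ℕ} (hm : 1 ≤ m) (h : y ∈ l) :
    ¬ Bef (l ++ List.replicate m x) x y := by
  obtain ⟨r, rfl⟩ := Nat.exists_eq_add_of_le hm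
  rw [Nat.add_comm, List.replicate_succ', ← List.append_assoc]
  exact not_bef_snoc (List.mem_append_left _ h)

/-- a word with the shape and the facts of `W a b i s` -/
theorem toW (nfe : MWHP.NfeStmt) (okw : OkwStmt) {β : FIC} (hβ : BaseH n β) {k : ℕ} {a b : ℕ → ℕ} {i : ℕ}
    (hV : Vd k a b i) {s : Stt} (hs : Vs a b i s) (B : ℕ → List ℕ)
    (h01 : ∀ j, ∀ c ∈ B j, c = 0 ∨ c = 1)
    (hge : ∀ j, a j ≤ (B j).count 0 ∧ b j ≤ (B j).count 1)
    (hsh : ∀ j, ((B j).count 0 = a j ∨ (2 ≤ a j ∧ (B j).count 0 ≡ a j [MOD n])) ∧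
      ((B j).count 1 = b j ∨ (2 ≤ b j ∧ (B j).count 1 ≡ b j [MOD n])))
    (hB1 : Bef (B i) 0 1 ↔ s = Stt.xy) (hB2 : Bef (B i) 1 0 ↔ s = Stt.yx) :
    RR β (asm k B) (asm k (W a b i s)) := by
  obtain ⟨o1, o2, o3, o4, o5, o6⟩ := okw k a b i s hV hs
  have hz : ∀ j, a j = 0 → 0 ∉ B j := by
    intro j hj hm
    rcases (hsh j).1 with h | h
    · exact List.count_pos_iff.2 hm |>.ne' (h.trans hj)
    · omega
  have hz' : ∀ j, b j = 0 → 1 ∉ B j := by
    intro j hj hm
    rcases (hsh j).2 with h | h
    · exact List.count_pos_iff.2 hm |>.ne' (h.trans hj)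
    · omega
  apply nfe n β hβ k B _ ?_ o1
  · intro c _ j _
    change (B j).count c = (W a b i s j).count c ∨
      (2 ≤ (B j).count c ∧ 2 ≤ (W a b i s j).count c ∧
        (B j).count c ≡ (W a b i s j).count c [MOD n])
    by_cases hc0 : c = 0
    · subst hc0
      rw [(o3 j).1]
      have h1 := (hge j).1
      rcases (hsh j).1 with h | h
      · exact Or.inl h
      · exact Or.inr ⟨by omega, h.1, h.2⟩
    · by_cases hc1 : c = 1
      · subst hc1
        rw [(o3 j).2]
        have h1 := (hge j).2
        rcases (hsh j).2 with h | h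
        · exact Or.inl h
        · exact Or.inr ⟨by omega, h.1, h.2⟩
      · left
        have e1 : c ∉ B j := fun h => by
          rcases h01 j c h with h | h
          · exact hc0 h
          · exact hc1 h
        have e2 : c ∉ W a b i s j := fun h => by
          rcases o4 j c h with h | h
          · exact hc0 h
          · exact hc1 h
        rw [List.count_eq_zero_of_not_mem e1, List.count_eq_zero_of_not_mem e2]
  · intro i' hi' x y hxy hx hy _
    have hii : i' = i := by
      by_contra hne
      rcases hV.un i' hi' hne with h | h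
      · have h0 := hz i' h
        rcases h01 i' x hx with rfl | rfl
        · exact h0 hx
        · rcases h01 i' y hy with rfl | rfl
          · exact h0 hy
          · exact hxy rfl
      · have h0 := hz' i' h
        rcases h01 i' x hx with rfl | rfl
        · rcases h01 i' y hy with rfl | rfl
          · exact hxy rfl
          · exact h0 hy
        · exact h0 hx
    subst hii
    rcases h01 i' x hx with rfl | rfl
    · rcases h01 i' y hy with rfl | rfl
      · exact (hxy rfl).elim
      · exact hB1.trans o5.symm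
    · rcases h01 i' y hy with rfl | rfl
      · exact hB2.trans o6.symm
      · exact (hxy rfl).elim
  · constructor
    · intro j _ c hc
      unfold NS
      rcases h01 j c hc with rfl | rfl <;> omega
    · intro j _ c hc
      rcases h01 j c hc with rfl | rfl
      · refine hV.da.trans ?_
        unfold deg
        exact Finset.sum_le_sum fun j _ => (hge j).1
      · refine hV.db.trans ?_
        unfold deg
        exact Finset.sum_le_sum fun j _ => (hge j).2

/-- letters before and behind the common block -/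
theorem all_core (nfe : MWHP.NfeStmt) (okw : OkwStmt) {β θ : FIC} (hβ : BaseH n β) (hle : β ≤ θ) {k : ℕ}
    {a b : ℕ → ℕ} {i : ℕ} (hV : Vd k a b i) (P Q : ℕ → List ℕ)
    (hPQ : ∀ s : Stt, ∀ j, ∀ c ∈ P j ++ W a b i s j ++ Q j, c = 0 ∨ c = 1)
    (hge : ∀ s : Stt, Vs a b i s → ∀ j, a j ≤ (P j ++ W a b i s j ++ Q j).count 0 ∧
      b j ≤ (P j ++ W a b i s j ++ Q j).count 1)
    (hsh : ∀ s : Stt, Vs a b i s → ∀ j, ((P j ++ W a b i s j ++ Q j).count 0 = a j ∨
        (2 ≤ a j ∧ (P j ++ W a b i s j ++ Q j).count 0 ≡ a j [MOD n])) ∧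
      ((P j ++ W a b i s j ++ Q j).count 1 = b j ∨
        (2 ≤ b j ∧ (P j ++ W a b i s j ++ Q j).count 1 ≡ b j [MOD n])))
    (h2 : 2 ≤ a i ∨ 2 ≤ b i)
    (hx : ∀ s : Stt, Vs a b i s → (Bef (P i ++ W a b i s i ++ Q i) 0 1 ↔ s = Stt.xy))
    (hy : ∀ s : Stt, Vs a b i s → ¬ Bef (P i ++ W a b i s i ++ Q i) 1 0)
    (hr : Tr θ k a b i Stt.xy Stt.yx) :
    Tr θ k a b i Stt.xy Stt.ov ∧ Tr θ k a b i Stt.yx Stt.ov := by
  have v1 : Vs a b i Stt.xy := fun h => by cases h
  have v2 : Vs a b i Stt.yx := fun h => by cases h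
  have v3 : Vs a b i Stt.ov := fun _ => h2
  have o1 := (okw k a b i Stt.xy hV v1).1
  have o2 := (okw k a b i Stt.yx hV v2).1
  have hr1 := rr_ins' θ P Q o1.ok o2.ok hr
  have w1 := toW nfe okw hβ hV v1 (fun j => P j ++ W a b i Stt.xy j ++ Q j) (hPQ Stt.xy)
    (hge Stt.xy v1) (hsh Stt.xy v1) (hx Stt.xy v1)
    ⟨fun h => absurd h (hy Stt.xy v1), fun h => by cases h⟩
  have w2 := toW nfe okw hβ hV v3 (fun j => P j ++ W a b i Stt.yx j ++ Q j) (hPQ Stt.yx)
    (hge Stt.yx v2) (hsh Stt.yx v2)
    ⟨fun h => absurd ((hx Stt.yx v2).1 h) (by decide), fun h => by cases h⟩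
    ⟨fun h => absurd h (hy Stt.yx v2), fun h => by cases h⟩
  have t1 : Tr θ k a b i Stt.xy Stt.ov := θ.trans (RR.symm (hle _ _ w1)) (θ.trans hr1 (hle _ _ w2))
  exact ⟨t1, θ.trans (RR.symm hr) t1⟩

theorem all (nfe : MWHP.NfeStmt) (okw : OkwStmt) : MWHP.AllStmt := by
  intro n β θ hβ hle k a b i hV h2 hr
  have hn : 1 ≤ n := hβ.pos
  have hW0 : ∀ s : Stt, Vs a b i s → 0 ∈ W a b i s i := fun s hs => by
    have h := ((okw k a b i s hV hs).2.2.1 i).1
    exact List.count_pos_iff.1 (by have := hV.ai; omega)
  have hW1 : ∀ s : Stt, Vs a b i s → 1 ∈ W a b i s i := fun s hs => by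
    have h := ((okw k a b i s hV hs).2.2.1 i).2
    exact List.count_pos_iff.1 (by have := hV.bi; omega)
  have v3 : Vs a b i Stt.ov := fun _ => h2
  have hmem : ∀ s : Stt, ∀ j, ∀ c ∈ W a b i s j, c = 0 ∨ c = 1 := by
    intro s
    cases s with
    | xy => exact (okw k a b i Stt.xy hV (fun h => by cases h)).2.2.2.1
    | yx => exact (okw k a b i Stt.yx hV (fun h => by cases h)).2.2.2.1
    | ov => exact (okw k a b i Stt.ov hV v3).2.2.2.1
  rcases h2 with h2 | h2
  · refine all_core nfe okw hβ hle hV (fun j => if j = i then List.replicate n 0 else []) (fun _ => []) ?_ ?_ ?_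
      (Or.inl h2) ?_ ?_ hr
    · intro s j c hc
      rw [List.append_nil] at hc
      rcases List.mem_append.1 hc with h | h
      · by_cases hj : j = i
        · rw [if_pos hj] at h
          exact Or.inl (List.mem_replicate.1 h).2
        · rw [if_neg hj] at h
          simp at h
      · exact hmem s j c h
    · intro s hs j
      have h := (okw k a b i s hV hs).2.2.1 j
      rw [List.append_nil, List.count_append, List.count_append, h.1, h.2]
      exact ⟨by omega, by omega⟩
    · intro s hs j
      have h := (okw k a b i s hV hs).2.2.1 j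
      rw [List.append_nil, List.count_append, List.count_append, h.1, h.2]
      by_cases hj : j = i
      · subst hj
        rw [if_pos rfl]
        exact ⟨Or.inr ⟨h2, by simp [Nat.ModEq]⟩, Or.inl (by simp [List.count_replicate])⟩
      · rw [if_neg hj]
        exact ⟨Or.inl (by simp), Or.inl (by simp)⟩
    · intro s hs
      rw [List.append_nil, if_pos rfl]
      exact (bef_rep (by decide) n).trans (okw k a b i s hV hs).2.2.2.2.1
    · intro s hs
      rw [List.append_nil, if_pos rfl]
      exact not_bef_rep hn (hW1 s hs)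
  · refine all_core nfe okw hβ hle hV (fun _ => []) (fun j => if j = i then List.replicate n 1 else []) ?_ ?_ ?_
      (Or.inr h2) ?_ ?_ hr
    · intro s j c hc
      rw [List.nil_append] at hc
      rcases List.mem_append.1 hc with h | h
      · exact hmem s j c h
      · by_cases hj : j = i
        · rw [if_pos hj] at h
          exact Or.inr (List.mem_replicate.1 h).2
        · rw [if_neg hj] at h
          simp at h
    · intro s hs j
      have h := (okw k a b i s hV hs).2.2.1 j
      rw [List.nil_append, List.count_append, List.count_append, h.1, h.2]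
      exact ⟨by omega, by omega⟩
    · intro s hs j
      have h := (okw k a b i s hV hs).2.2.1 j
      rw [List.nil_append, List.count_append, List.count_append, h.1, h.2]
      by_cases hj : j = i
      · subst hj
        rw [if_pos rfl]
        exact ⟨Or.inl (by simp [List.count_replicate]), Or.inr ⟨h2, by simp [Nat.ModEq]⟩⟩
      · rw [if_neg hj]
        exact ⟨Or.inl (by simp), Or.inl (by simp)⟩
    · intro s hs
      rw [List.nil_append, if_pos rfl]
      exact (bef_rep' (by decide) n).trans (okw k a b i s hV hs).2.2.2.2.1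
    · intro s hs
      rw [List.nil_append, if_pos rfl]
      exact not_bef_rep' hn (hW0 s hs)

end Pool.Agent.MWHP.H48A
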