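import Pool.Agent.MWHP.StmtsF

/-!
Block MWH (MP_23468a_al), row EDV: the edges of two letter words from vectors.
-/

set_option autoImplicit false

namespace Pool.Agent.MWHP.H48

open Pool.Agent.Helper14_MV Pool.Agent.Helper2_MV Pool.Agent.MVO Pool.Agent.MWL Pool.Agent.MWS
open Pool.Agent.MWH


open Pool.Agent.MWH

variable {n : ℕ}

theorem tr_refl (θ : FIC) (k : ℕ) (a b : ℕ → ℕ) (i : ℕ) (s : Stt) : Tr θ k a b i s s :=
  RR.refl _

theorem tr_symm {θ : FIC} {k : ℕ} {a b : ℕ → ℕ} {i : ℕ} {s s' : Stt} (h : Tr θ k a b i s s') :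
    Tr θ k a b i s' s := RR.symm h

theorem tr_trans {θ : FIC} {k : ℕ} {a b : ℕ → ℕ} {i : ℕ} {s s' s2 : Stt}
    (h : Tr θ k a b i s s') (h' : Tr θ k a b i s' s2) : Tr θ k a b i s s2 := θ.trans h h'

theorem eg_refl (β : FIC) (k : ℕ) (a b : ℕ → ℕ) (i : ℕ) (s : Stt) : Eg β k a b i s s :=
  ⟨[], by simp, fun θ _ _ => by simp [tr_refl]⟩

theorem eg_symm {β : FIC} {k : ℕ} {a b : ℕ → ℕ} {i : ℕ} {s s' : Stt} (h : Eg β k a b i s s') :
    Eg β k a b i s' s := by
  obtain ⟨L, h1, h2⟩ := h
  refine ⟨L, h1, fun θ hθ hn => ?_⟩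
  rw [← h2 θ hθ hn]
  exact ⟨tr_symm, tr_symm⟩

theorem edv (nfe : MWHP.NfeStmt) (nfw : MWHP.NfwStmt) (eqw : MWHP.EqwStmt) (swt : MWHP.SwtStmt)
    (all : MWHP.AllStmt) (nrx : MWHP.NrxStmt) : MWHP.EdvStmt := by
  intro n β hβ hyp
  -- the second letter occurs twice in the block
  have coreB : ∀ (k : ℕ) (a b : ℕ → ℕ) (i : ℕ), Vd k a b i → Nrm n (FC.ofFIC β) k a →
      Nrm n (FC.ofFIC β) k b → 2 ≤ b i → ∀ s s' : Stt, Eg β k a b i s s' := by
    intro k a b i hV hNa hNb hb
    obtain ⟨E1, E2⟩ := (hyp k a b i hV hNa hNb).2 hb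
    have E3 : Eg β k a b i Stt.xy Stt.yx := by
      obtain ⟨L1, h1, h1'⟩ := E1
      obtain ⟨L2, h2, h2'⟩ := E2
      refine ⟨L1 ++ L2, ?_, ?_⟩
      · intro e he
        rcases List.mem_append.1 he with h | h
        · exact h1 e h
        · exact h2 e h
      · intro θ hθ hn
        constructor
        · intro h
          obtain ⟨h3, h4⟩ := all n β θ hβ hθ k a b i hV (Or.inr hb) h
          intro e he
          rcases List.mem_append.1 he with h | h
          · exact (h1' θ hθ hn).1 h3 e h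
          · exact (h2' θ hθ hn).1 h4 e h
        · intro h
          have h3 := (h1' θ hθ hn).2 (fun e he => h e (List.mem_append_left _ he))
          have h4 := (h2' θ hθ hn).2 (fun e he => h e (List.mem_append_right _ he))
          exact tr_trans h3 (tr_symm h4)
    intro s s'
    cases s <;> cases s'
    · exact eg_refl _ _ _ _ _ _
    · exact E3
    · exact E1
    · exact eg_symm E3
    · exact eg_refl _ _ _ _ _ _
    · exact E2
    · exact eg_symm E1
    · exact eg_symm E2
    · exact eg_refl _ _ _ _ _ _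
  have core : ∀ (k : ℕ) (a b : ℕ → ℕ) (i : ℕ), Vd k a b i → Nrm n (FC.ofFIC β) k a →
      Nrm n (FC.ofFIC β) k b → ∀ s s' : Stt, Vs a b i s → Vs a b i s' → Eg β k a b i s s' := by
    intro k a b i hV hNa hNb s s' hs hs'
    by_cases hb : 2 ≤ b i
    · exact coreB k a b i hV hNa hNb hb s s'
    by_cases ha : 2 ≤ a i
    · have hV2 := (swt n β β hβ (fun _ _ h => h) k a b i hV).1
      obtain ⟨L, h1, h2⟩ := coreB k b a i hV2 hNb hNa ha s.sw s'.sw
      refine ⟨L, h1, fun θ hθ hn => ?_⟩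
      rw [← h2 θ hθ hn]
      exact ((swt n β θ hβ hθ k a b i hV).2 s s' hs hs').2
    · have ha1 : a i = 1 := by
        have := hV.ai
        omega
      have hb1 : b i = 1 := by
        have := hV.bi
        omega
      have hso : s ≠ Stt.ov := fun h => by
        rcases hs h with h | h
        · exact ha h
        · exact hb h
      have hso' : s' ≠ Stt.ov := fun h => by
        rcases hs' h with h | h
        · exact ha h
        · exact hb h
      have E := (hyp k a b i hV hNa hNb).1 ha1 hb1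
      cases s <;> cases s'
      · exact eg_refl _ _ _ _ _ _
      · exact E
      · exact absurd rfl hso'
      · exact eg_symm E
      · exact eg_refl _ _ _ _ _ _
      · exact absurd rfl hso'
      · exact absurd rfl hso
      · exact absurd rfl hso
      · exact absurd rfl hso
  intro k B B' hB hB' h01 h01' hshp
  by_cases hc : ∃ i ≤ k, 0 ∈ B i ∧ 1 ∈ B i ∧ ∀ j ≤ k, j ≠ i → 0 ∉ B j ∨ 1 ∉ B j
  · obtain ⟨i, hi, h0, h1, hun⟩ := hc
    have hN0 : NS k 0 := by
      unfold NS
      omega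
    have hN1 : NS k 1 := by
      unfold NS
      omega
    have hmem : ∀ c, NS k c → ∀ j ≤ k, (c ∈ B j ↔ c ∈ B' j) := by
      intro c hcN j hj
      have h2 := hshp c hcN j hj
      unfold ty at h2
      rw [← List.count_pos_iff, ← List.count_pos_iff]
      rcases h2 with h2 | ⟨h2, h3, _⟩
      · omega
      · omega
    obtain ⟨hV, s, hVs, hRR, _, _⟩ := nfw n β hβ k B hB h01 i hi h0 h1 hun
    obtain ⟨hV', s', hVs', hRR', _, _⟩ := nfw n β hβ k B' hB' h01' i hi
      ((hmem 0 hN0 i hi).1 h0) ((hmem 1 hN1 i hi).1 h1) (fun j hj hji => by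
        rw [← hmem 0 hN0 j hj, ← hmem 1 hN1 j hj]
        exact hun j hj hji)
    have hsymm : ∀ a b : ℕ → ℕ, Eq2 n k a b → Eq2 n k b a := by
      intro a b h j hj
      rcases h j hj with h1 | ⟨h1, h2, h3⟩
      · exact Or.inl h1.symm
      · exact Or.inr ⟨h2, h1, h3.symm⟩
    have hVs2 : Vs (ty B 0) (ty B 1) i s' := by
      intro h
      have h3 := hVs' h
      have h4 := hshp 0 hN0 i hi
      have h5 := hshp 1 hN1 i hi
      rcases h4 with h4 | ⟨h4, _, _⟩
      · rcases h5 with h5 | ⟨h5, _, _⟩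
        · omega
        · exact Or.inr h5
      · exact Or.inl h4
    have hR2 := eqw n β hβ k (ty B' 0) (ty B' 1) (ty B 0) (ty B 1) i hV' hV
      (hsymm _ _ (hshp 0 hN0)) (hsymm _ _ (hshp 1 hN1)) s' hVs'
    obtain ⟨a', b', hV2, hNa, hNb, hle, hTr⟩ := nrx n β hβ k (ty B 0) (ty B 1) i hV
    have hmono : ∀ t : Stt, Vs (ty B 0) (ty B 1) i t → Vs a' b' i t := by
      intro t ht h
      have h3 := ht h
      have h4 := hle i
      omega
    obtain ⟨L, hL1, hL2⟩ := core k a' b' i hV2 hNa hNb s s' (hmono s hVs) (hmono s' hVs2)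
    refine ⟨L, hL1, fun θ hθ hn => ?_⟩
    rw [← hL2 θ hθ hn, ← hTr θ hθ s s' hVs hVs2]
    have hA : RR θ (asm k B) (asm k (W (ty B 0) (ty B 1) i s)) := hθ _ _ hRR
    have hB2 : RR θ (asm k B') (asm k (W (ty B 0) (ty B 1) i s')) :=
      θ.trans (hθ _ _ hRR') (hθ _ _ hR2)
    constructor
    · intro h
      exact θ.trans (RR.symm hA) (θ.trans h hB2)
    · intro h
      exact θ.trans hA (θ.trans h (RR.symm hB2))
  · have hR : RR β (asm k B) (asm k B') := by
      apply nfe n β hβ k B B' hB hB' hshp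
      intro i hi x y hxy hx hy hun
      exfalso
      apply hc
      rcases h01 i hi x hx with rfl | rfl
      · rcases h01 i hi y hy with rfl | rfl
        · exact absurd rfl hxy
        · exact ⟨i, hi, hx, hy, hun⟩
      · rcases h01 i hi y hy with rfl | rfl
        · exact ⟨i, hi, hy, hx, fun j hj hji => (hun j hj hji).symm⟩
        · exact absurd rfl hxy
    refine ⟨[], by simp, fun θ hθ _ => ?_⟩
    constructor
    · intro _ e he
      simp at he
    · intro _
      exact hθ _ _ hR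

end Pool.Agent.MWHP.H48
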