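import Pool.Agent.MWHP.StmtsF

/-!
# MWH NFW (MP_23468a_al): normal form of two letter words with exactly one common block
-/

namespace Pool.Agent.MWHP.H48W

open Pool.Agent.Helper14_MV Pool.Agent.Helper2_MV Pool.Agent.MVO Pool.Agent.MWL Pool.Agent.MWS


open Pool.Agent.MWH

variable {n : ℕ}

theorem not_both {l : List ℕ} {x y : ℕ} (hx : x ∈ l) (hy : y ∈ l) (hxy : x ≠ y)
    (h1 : Bef l x y) (h2 : Bef l y x) : False := by
  obtain ⟨P, Q, rfl⟩ := List.append_of_mem hx
  rcases List.mem_append.1 hy with h | h
  · obtain ⟨P1, P2, rfl⟩ := List.append_of_mem h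
    exact h1 P1 (P2 ++ x :: Q) (by simp) (by simp)
  · rcases List.mem_cons.1 h with h | h
    · exact hxy h.symm
    · exact h2 P Q rfl h

theorem one_of {l : List ℕ} {x y : ℕ} (hx : l.count x ≤ 1) (hy : l.count y ≤ 1) (hxy : x ≠ y)
    (h1 : ¬ Bef l x y) (h2 : ¬ Bef l y x) : False := by
  unfold Bef at h1 h2
  push Not at h1 h2
  obtain ⟨P, Q, e1, m1⟩ := h1
  obtain ⟨P', Q', e2, m2⟩ := h2
  have c1 : l.count x = P.count x + Q.count x := by
    rw [e1, List.count_append, List.count_cons_of_ne hxy.symm]
  have c2 : l.count y = P'.count y + Q'.count y := by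
    rw [e2, List.count_append, List.count_cons_of_ne hxy]
  have d1 : 0 < Q.count x := List.count_pos_iff.2 m1
  have d2 : 0 < Q'.count y := List.count_pos_iff.2 m2
  have f1 : x ∉ P := fun h => by
    have := List.count_pos_iff.2 h
    omega
  have f2 : y ∉ P' := fun h => by
    have := List.count_pos_iff.2 h
    omega
  rw [e1] at e2
  rcases List.append_eq_append_iff.1 e2 with ⟨as, ha, hb⟩ | ⟨as, ha, hb⟩
  · cases as with
    | nil =>
      simp only [List.nil_append, List.cons.injEq] at hb
      exact hxy hb.1.symm
    | cons c as =>
      simp only [List.cons_append, List.cons.injEq] at hb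
      exact f2 (by rw [ha, ← hb.1]; simp)
  · cases as with
    | nil =>
      simp only [List.nil_append, List.cons.injEq] at hb
      exact hxy hb.1
    | cons c as =>
      simp only [List.cons_append, List.cons.injEq] at hb
      exact f1 (by rw [ha, ← hb.1]; simp)

theorem nfw (nfe : MWHP.NfeStmt) (okw : OkwStmt) : MWHP.NfwStmt := by
  intro n β hβ k B hB h01 i hi h0 h1 hun
  have hV : Vd k (ty B 0) (ty B 1) i :=
    { ik := hi
      ai := by
        have := List.count_pos_iff.2 h0
        unfold ty
        omega
      bi := by
        have := List.count_pos_iff.2 h1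
        unfold ty
        omega
      un := by
        intro j hj hji
        rcases hun j hj hji with h | h
        · exact Or.inl (List.count_eq_zero_of_not_mem h)
        · exact Or.inr (List.count_eq_zero_of_not_mem h)
      da := hB.ml i hi 0 h0
      db := hB.ml i hi 1 h1 }
  refine ⟨hV, ?_⟩
  have key : ∃ s : Stt, Vs (ty B 0) (ty B 1) i s ∧
      (Bef (B i) 0 1 ↔ s = Stt.xy) ∧ (Bef (B i) 1 0 ↔ s = Stt.yx) := by
    by_cases b1 : Bef (B i) 0 1
    · refine ⟨Stt.xy, fun h => (by cases h), ⟨fun _ => rfl, fun _ => b1⟩, ?_⟩
      constructor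
      · intro b2
        exact (not_both h0 h1 (by decide) b1 b2).elim
      · intro h
        cases h
    · by_cases b2 : Bef (B i) 1 0
      · refine ⟨Stt.yx, fun h => (by cases h), ?_, ⟨fun _ => rfl, fun _ => b2⟩⟩
        constructor
        · intro b1'
          exact (b1 b1').elim
        · intro h
          cases h
      · refine ⟨Stt.ov, ?_, ?_, ?_⟩
        · intro _
          by_contra hno
          push Not at hno
          exact one_of (by have := hno.1; unfold ty at this; omega)
            (by have := hno.2; unfold ty at this; omega) (by decide) b1 b2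
        · exact ⟨fun h => (b1 h).elim, fun h => (by cases h)⟩
        · exact ⟨fun h => (b2 h).elim, fun h => (by cases h)⟩
  obtain ⟨s, hs, hs1, hs2⟩ := key
  obtain ⟨o1, o2, o3, o4, o5, o6⟩ := okw k (ty B 0) (ty B 1) i s hV hs
  refine ⟨s, hs, ?_, hs1, hs2⟩
  apply nfe n β hβ k B _ hB o1
  · intro c _ j hj
    left
    by_cases hc0 : c = 0
    · subst hc0
      exact (o3 j).1.symm
    · by_cases hc1 : c = 1
      · subst hc1
        exact (o3 j).2.symm
      · have e1 : c ∉ B j := fun h => by
          rcases h01 j hj c h with h | h
          · exact hc0 h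
          · exact hc1 h
        have e2 : c ∉ W (ty B 0) (ty B 1) i s j := fun h => by
          rcases o4 j c h with h | h
          · exact hc0 h
          · exact hc1 h
        show (B j).count c = (W (ty B 0) (ty B 1) i s j).count c
        rw [List.count_eq_zero_of_not_mem e1, List.count_eq_zero_of_not_mem e2]
  · intro i' hi' x y hxy hx hy _
    have hx2 := h01 i' hi' x hx
    have hy2 := h01 i' hi' y hy
    have hii : i' = i := by
      by_contra hne
      rcases hun i' hi' hne with h | h
      · rcases hx2 with rfl | rfl
        · exact h hx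
        · rcases hy2 with rfl | rfl
          · exact h hy
          · exact hxy rfl
      · rcases hx2 with rfl | rfl
        · rcases hy2 with rfl | rfl
          · exact hxy rfl
          · exact h hy
        · exact h hx
    subst hii
    rcases hx2 with rfl | rfl
    · rcases hy2 with rfl | rfl
      · exact (hxy rfl).elim
      · exact hs1.trans o5.symm
    · rcases hy2 with rfl | rfl
      · exact hs2.trans o6.symm
      · exact (hxy rfl).elim

end Pool.Agent.MWHP.H48W
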