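import Pool.Agent.Helper48_MWHPA.ALL

/-!
# MWHP, row SHW: only the shapes matter for transitions
-/

set_option autoImplicit false

namespace Pool.Agent.MWHP.H48S

open Pool.Agent.Helper14_MV Pool.Agent.Helper2_MV Pool.Agent.MVO Pool.Agent.MWL Pool.Agent.MWS
open Pool.Agent.MWH Pool.Agent.MWHP.H48A

/-- the number of letters which are added in block `j` -/
def ec (n : ℕ) (a a' : ℕ → ℕ) (j : ℕ) : ℕ := if 2 ≤ a j then (n - 1) * a j + a' j else 0

theorem ec_spec {n k : ℕ} (hn : 1 ≤ n) {a a' : ℕ → ℕ} (h : Sh k a a') {j : ℕ} (hj : j ≤ k) :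
    a' j ≤ a j + ec n a a' j ∧ (a j + ec n a a' j = a' j ∨
      (2 ≤ a' j ∧ a j + ec n a a' j ≡ a' j [MOD n])) := by
  unfold ec
  by_cases h2 : 2 ≤ a j
  · rw [if_pos h2]
    have h3 : 2 ≤ a' j := by
      rcases h j hj with h4 | h4
      · omega
      · exact h4.2
    have e : a j + ((n - 1) * a j + a' j) = n * a j + a' j := by
      obtain ⟨m, rfl⟩ := Nat.exists_eq_add_of_le hn
      rw [Nat.add_sub_cancel_left]
      ring
    rw [e]
    refine ⟨by omega, Or.inr ⟨h3, ?_⟩⟩
    unfold Nat.ModEq
    rw [Nat.mul_add_mod]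
  · rw [if_neg h2]
    have h3 : a j = a' j := by
      rcases h j hj with h4 | h4
      · exact h4
      · exact absurd h4.1 h2
    omega

theorem bef_mid {P w Q : List ℕ} {x y : ℕ} (h : Bef (P ++ w ++ Q) x y) : Bef w x y := by
  intro P1 Q1 hw hx
  refine h (P ++ P1) (Q1 ++ Q) ?_ (List.mem_append_left _ hx)
  rw [hw]
  simp

/-- insertion in all blocks -/
theorem ins (nfe : MWHP.NfeStmt) (okw : OkwStmt) {n : ℕ} {β θ : FIC} (hβ : BaseH n β) (hle : β ≤ θ)
    {k : ℕ} {a b a' b' : ℕ → ℕ} {i : ℕ} (hV : Vd k a b i) (hV' : Vd k a' b' i) (ha : Sh k a a')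
    (hb : Sh k b b') (Pi Qi : List ℕ) (h01 : ∀ c ∈ Pi ++ Qi, c = 0 ∨ c = 1)
    (c0 : (Pi ++ Qi).count 0 = ec n a a' i) (c1 : (Pi ++ Qi).count 1 = ec n b b' i) {s s' : Stt}
    (hs : Vs a b i s) (hs' : Vs a b i s')
    (hf : ∀ t : Stt, (t = s ∨ t = s') → (Bef (Pi ++ W a b i t i ++ Qi) 0 1 ↔ t = Stt.xy) ∧
      (Bef (Pi ++ W a b i t i ++ Qi) 1 0 ↔ t = Stt.yx)) (h : Tr θ k a b i s s') :
    Tr θ k a' b' i s s' := by
  have hn : 1 ≤ n := hβ.pos
  have o1 := (okw k a b i s hV hs).1
  have o2 := (okw k a b i s' hV hs').1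
  -- the insertions
  let P : ℕ → List ℕ := fun j => if j = i then Pi else []
  let Q : ℕ → List ℕ := fun j => if j = i then Qi else if j ≤ k then
    List.replicate (ec n a a' j) 0 ++ List.replicate (ec n b b' j) 1 else []
  have hr := rr_ins' θ P Q o1.ok o2.ok h
  have hvt : ∀ t : Stt, Vs a b i t → Vs a' b' i t := by
    intro t ht hto
    rcases ht hto with h1 | h1
    · left
      rcases ha i hV.ik with h2 | h2
      · omega
      · exact h2.2
    · right
      rcases hb i hV.ik with h2 | h2
      · omega
      · exact h2.2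
  have hm01 : ∀ t : Stt, Vs a b i t → ∀ j, ∀ c ∈ P j ++ W a b i t j ++ Q j, c = 0 ∨ c = 1 := by
    intro t ht j c hc
    have hW := (okw k a b i t hV ht).2.2.2.1
    rw [List.append_assoc, List.mem_append, List.mem_append] at hc
    by_cases hji : j = i
    · simp only [P, Q, if_pos hji] at hc
      rcases hc with hc | hc | hc
      · exact h01 c (List.mem_append_left _ hc)
      · exact hW j c hc
      · exact h01 c (List.mem_append_right _ hc)
    · simp only [P, Q, if_neg hji] at hc
      rcases hc with hc | hc | hc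
      · simp at hc
      · exact hW j c hc
      · by_cases hjk : j ≤ k
        · rw [if_pos hjk, List.mem_append, List.mem_replicate, List.mem_replicate] at hc
          rcases hc with hc | hc
          · exact Or.inl hc.2
          · exact Or.inr hc.2
        · rw [if_neg hjk] at hc
          simp at hc
  have key : ∀ t : Stt, (t = s ∨ t = s') → Vs a b i t →
      RR β (asm k (fun j => P j ++ W a b i t j ++ Q j)) (asm k (W a' b' i t)) := by
    intro t hts ht
    obtain ⟨p1, p2, p3, p4, p5, p6⟩ := okw k a b i t hV ht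
    obtain ⟨q1, q2, q3, q4, q5, q6⟩ := okw k a' b' i t hV' (hvt t ht)
    have hcnt : ∀ j ≤ k, (P j ++ W a b i t j ++ Q j).count 0 = a j + ec n a a' j ∧
        (P j ++ W a b i t j ++ Q j).count 1 = b j + ec n b b' j := by
      intro j hj
      rw [List.count_append, List.count_append, List.count_append, List.count_append, (p3 j).1,
        (p3 j).2]
      by_cases hji : j = i
      · simp only [P, Q, if_pos hji]
        rw [List.count_append] at c0 c1
        rw [hji]
        omega
      · simp only [P, Q, if_neg hji, if_pos hj]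
        simp [List.count_append, List.count_replicate]
    have hEq : ∀ j ≤ k, ∀ c, (P j ++ W a b i t j ++ Q j).count c = (W a' b' i t j).count c ∨
        (2 ≤ (P j ++ W a b i t j ++ Q j).count c ∧ 2 ≤ (W a' b' i t j).count c ∧
          (P j ++ W a b i t j ++ Q j).count c ≡ (W a' b' i t j).count c [MOD n]) := by
      intro j hj c
      by_cases hc0 : c = 0
      · subst hc0
        rw [(hcnt j hj).1, (q3 j).1]
        obtain ⟨h1, h2⟩ := ec_spec hn ha hj
        rcases h2 with h2 | ⟨h2, h3⟩
        · exact Or.inl h2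
        · exact Or.inr ⟨by omega, h2, h3⟩
      · by_cases hc1 : c = 1
        · subst hc1
          rw [(hcnt j hj).2, (q3 j).2]
          obtain ⟨h1, h2⟩ := ec_spec hn hb hj
          rcases h2 with h2 | ⟨h2, h3⟩
          · exact Or.inl h2
          · exact Or.inr ⟨by omega, h2, h3⟩
        · left
          rw [List.count_eq_zero.2 (fun h => ?_), List.count_eq_zero.2 (fun h => ?_)]
          · rcases q4 j c h with h | h
            · exact hc0 h
            · exact hc1 h
          · rcases hm01 t ht j c h with h | h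
            · exact hc0 h
            · exact hc1 h
    have hpos : ∀ j ≤ k, ∀ c, c ∈ P j ++ W a b i t j ++ Q j → c ∈ W a' b' i t j := by
      intro j hj c hc
      rw [← List.count_pos_iff] at hc ⊢
      rcases hEq j hj c with h1 | h1 <;> omega
    refine nfe n β hβ k _ _ ?_ q1 ?_ ?_
    · constructor
      · intro j hj c hc
        exact q1.ok j hj c (hpos j hj c hc)
      · intro j hj c hc
        have h5 : c = 0 ∨ c = 1 := hm01 t ht j c hc
        rcases h5 with rfl | rfl
        · refine hV'.da.trans ?_
          unfold deg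
          refine Finset.sum_le_sum fun r hr => ?_
          have hrk : r ≤ k := by
            have := Finset.mem_range.1 hr
            omega
          show a' r ≤ (P r ++ W a b i t r ++ Q r).count 0
          rw [(hcnt r hrk).1]
          exact (ec_spec hn ha hrk).1
        · refine hV'.db.trans ?_
          unfold deg
          refine Finset.sum_le_sum fun r hr => ?_
          have hrk : r ≤ k := by
            have := Finset.mem_range.1 hr
            omega
          show b' r ≤ (P r ++ W a b i t r ++ Q r).count 1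
          rw [(hcnt r hrk).2]
          exact (ec_spec hn hb hrk).1
    · intro c _ j hj
      exact hEq j hj c
    · intro j hj x y hxy hx hy _
      have hx2 := hpos j hj x hx
      have hy2 := hpos j hj y hy
      have hji : j = i := by
        by_contra hne
        have m0 : 0 ∈ W a' b' i t j ∧ 1 ∈ W a' b' i t j := by
          rcases q4 j x hx2 with rfl | rfl
          · rcases q4 j y hy2 with rfl | rfl
            · exact absurd rfl hxy
            · exact ⟨hx2, hy2⟩
          · rcases q4 j y hy2 with rfl | rfl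
            · exact ⟨hy2, hx2⟩
            · exact absurd rfl hxy
        have n0 := List.count_pos_iff.2 m0.1
        have n1 := List.count_pos_iff.2 m0.2
        rw [(q3 j).1] at n0
        rw [(q3 j).2] at n1
        rcases hV'.un j hj hne with h | h <;> omega
      subst hji
      have e : P j ++ W a b j t j ++ Q j = Pi ++ W a b j t j ++ Qi := by
        simp only [P, Q, if_true]
      show Bef (P j ++ W a b j t j ++ Q j) x y ↔ _
      rw [e]
      obtain ⟨f1, f2⟩ := hf t hts
      rcases q4 j x hx2 with rfl | rfl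
      · rcases q4 j y hy2 with rfl | rfl
        · exact absurd rfl hxy
        · exact f1.trans q5.symm
      · rcases q4 j y hy2 with rfl | rfl
        · exact f2.trans q6.symm
        · exact absurd rfl hxy
  have k1 := key s (Or.inl rfl) hs
  have k2 := key s' (Or.inr rfl) hs'
  exact θ.trans (RR.symm (hle _ _ k1)) (θ.trans hr (hle _ _ k2))

/-- transitions to `ov` -/
theorem toOv (nfe : MWHP.NfeStmt) (okw : OkwStmt) {n : ℕ} {β θ : FIC} (hβ : BaseH n β) (hle : β ≤ θ)
    {k : ℕ} {a b a' b' : ℕ → ℕ} {i : ℕ} (hV : Vd k a b i) (hV' : Vd k a' b' i) (ha : Sh k a a')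
    (hb : Sh k b b') (h2 : 2 ≤ a i ∨ 2 ≤ b i) :
    (Tr θ k a b i Stt.xy Stt.ov → Tr θ k a' b' i Stt.xy Stt.ov) ∧
      (Tr θ k a b i Stt.yx Stt.ov → Tr θ k a' b' i Stt.yx Stt.ov) := by
  have v1 : Vs a b i Stt.xy := fun h => by cases h
  have v2 : Vs a b i Stt.yx := fun h => by cases h
  have v3 : Vs a b i Stt.ov := fun _ => h2
  have cc : ∀ e f : ℕ, (List.replicate e 0 ++ List.replicate f 1).count 0 = e ∧
      (List.replicate e 0 ++ List.replicate f 1).count 1 = f ∧
      (List.replicate f 1 ++ List.replicate e 0).count 0 = e ∧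
      (List.replicate f 1 ++ List.replicate e 0).count 1 = f := by
    intro e f
    simp [List.count_append, List.count_replicate]
  constructor
  · refine ins nfe okw hβ hle hV hV' ha hb (List.replicate (ec n a a' i) 0)
      (List.replicate (ec n b b' i) 1) ?_ (cc _ _).1 (cc _ _).2.1 v1 v3 ?_
    · intro c hc
      rw [List.mem_append, List.mem_replicate, List.mem_replicate] at hc
      rcases hc with hc | hc
      · exact Or.inl hc.2
      · exact Or.inr hc.2
    · intro t ht
      have hvt : Vs a b i t := by
        rcases ht with rfl | rfl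
        · exact v1
        · exact v3
      obtain ⟨p1, p2, p3, p4, p5, p6⟩ := okw k a b i t hV hvt
      constructor
      · rw [bef_rep' (by decide), bef_rep (by decide)]
        exact p5
      · constructor
        · intro hb1
          exact p6.1 (bef_mid hb1)
        · intro h
          exfalso
          rcases ht with rfl | rfl <;> cases h
  · refine ins nfe okw hβ hle hV hV' ha hb (List.replicate (ec n b b' i) 1)
      (List.replicate (ec n a a' i) 0) ?_ (cc _ _).2.2.1 (cc _ _).2.2.2 v2 v3 ?_
    · intro c hc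
      rw [List.mem_append, List.mem_replicate, List.mem_replicate] at hc
      rcases hc with hc | hc
      · exact Or.inr hc.2
      · exact Or.inl hc.2
    · intro t ht
      have hvt : Vs a b i t := by
        rcases ht with rfl | rfl
        · exact v2
        · exact v3
      obtain ⟨p1, p2, p3, p4, p5, p6⟩ := okw k a b i t hV hvt
      constructor
      · constructor
        · intro hb1
          exact p5.1 (bef_mid hb1)
        · intro h
          exfalso
          rcases ht with rfl | rfl <;> cases h
      · rw [bef_rep' (by decide), bef_rep (by decide)]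
        exact p6

/-- one direction -/
theorem fwd (nfe : MWHP.NfeStmt) (okw : OkwStmt) (all : MWHP.AllStmt) {n : ℕ} {β θ : FIC}
    (hβ : BaseH n β) (hle : β ≤ θ) {k : ℕ} {a b a' b' : ℕ → ℕ} {i : ℕ} (hV : Vd k a b i)
    (hV' : Vd k a' b' i) (ha : Sh k a a') (hb : Sh k b b') {s s' : Stt} (hs : Vs a b i s)
    (hs' : Vs a b i s') (h : Tr θ k a b i s s') : Tr θ k a' b' i s s' := by
  by_cases h2 : 2 ≤ a i ∨ 2 ≤ b i
  · obtain ⟨t1, t2⟩ := toOv nfe okw hβ hle hV hV' ha hb h2 (θ := θ)
    have t3 : Tr θ k a b i Stt.xy Stt.yx → Tr θ k a' b' i Stt.xy Stt.yx := by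
      intro h3
      obtain ⟨h4, h5⟩ := all n β θ hβ hle k a b i hV h2 h3
      exact θ.trans (t1 h4) (RR.symm (t2 h5))
    cases s <;> cases s'
    · exact RR.refl _
    · exact t3 h
    · exact t1 h
    · exact RR.symm (t3 (RR.symm h))
    · exact RR.refl _
    · exact t2 h
    · exact RR.symm (t1 (RR.symm h))
    · exact RR.symm (t2 (RR.symm h))
    · exact RR.refl _
  · have e1 : ec n a a' i = 0 := by
      unfold ec
      rw [if_neg (fun h3 => h2 (Or.inl h3))]
    have e2 : ec n b b' i = 0 := by
      unfold ec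
      rw [if_neg (fun h3 => h2 (Or.inr h3))]
    refine ins nfe okw hβ hle hV hV' ha hb [] [] (by simp) (by rw [e1]; rfl) (by rw [e2]; rfl) hs hs'
      ?_ h
    intro t ht
    have hvt : Vs a b i t := by
      rcases ht with rfl | rfl
      · exact hs
      · exact hs'
    obtain ⟨p1, p2, p3, p4, p5, p6⟩ := okw k a b i t hV hvt
    rw [List.nil_append, List.append_nil]
    exact ⟨p5, p6⟩

/-- **SHW** -/
theorem shw (nfe : MWHP.NfeStmt) (okw : OkwStmt) (all : MWHP.AllStmt) : MWHP.ShwStmt := by
  intro n β θ hβ hle k a b a' b' i hV hV' ha hb s s' hs hs'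
  have sym : ∀ {a a' : ℕ → ℕ}, Sh k a a' → Sh k a' a := by
    intro a a' h j hj
    rcases h j hj with h1 | h1
    · exact Or.inl h1.symm
    · exact Or.inr ⟨h1.2, h1.1⟩
  have hvt : ∀ t : Stt, Vs a b i t → Vs a' b' i t := by
    intro t ht hto
    rcases ht hto with h1 | h1
    · left
      rcases ha i hV.ik with h2 | h2
      · omega
      · exact h2.2
    · right
      rcases hb i hV.ik with h2 | h2
      · omega
      · exact h2.2
  exact ⟨fwd nfe okw all hβ hle hV hV' ha hb hs hs',
    fwd nfe okw all hβ hle hV' hV (sym ha) (sym hb) (hvt s hs) (hvt s' hs')⟩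

end Pool.Agent.MWHP.H48S
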