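import Pool.Agent.MWHP.StmtsN

set_option autoImplicit false

namespace Pool.Agent.MWHP.H48T

open Pool.Agent.Helper14_MV Pool.Agent.Helper2_MV Pool.Agent.MVO Pool.Agent.MWL Pool.Agent.MWS

theorem deg_mono {k : ℕ} {a b : ℕ → ℕ} (h : ∀ j ≤ k, a j ≤ b j) : deg k a ≤ deg k b := by
  unfold deg
  apply Finset.sum_le_sum
  intro j hj
  exact h j (by simpa [Nat.lt_succ_iff] using hj)

theorem sta (one : MVO.OneStmt) (trn : MWL.TrnStmt) (sat : MWHP.SatnStmt) : MWHP.StnStmt := by
  intro n β θ hβ hle k B hB
  have hn : 1 ≤ n := hβ.pos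
  have key : ∀ L : List (ℕ × ℕ), ∃ B1 : ℕ → List ℕ, OkB k B1 ∧ Sub k B B1 ∧
      RR θ (asm k B) (asm k B1) ∧ (∀ j ≤ k, ∀ c, (B j).count c ≤ (B1 j).count c) ∧
      ∀ p ∈ L, p.2 ≤ k → (∃ j ≤ k, p.1 ∈ B j) → Ab n (FC.ofFIC θ) k (ty B p.1) p.2 →
        2 ≤ (B1 p.2).count p.1 := by
    intro L
    induction L with
    | nil =>
      exact ⟨B, hB, fun c hc => hc, RR.refl _, fun _ _ _ => le_refl _, by simp⟩
    | cons q L ih =>
      obtain ⟨x, i⟩ := q
      obtain ⟨B1, hok, hsub, hrr, hcnt, hL⟩ := ih
      by_cases hc : i ≤ k ∧ (∃ j ≤ k, x ∈ B j) ∧ Ab n (FC.ofFIC θ) k (ty B x) i ∧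
          ¬ 2 ≤ (B1 i).count x
      · obtain ⟨hik, ⟨j0, hj0, hx0⟩, hab, -⟩ := hc
        have hns : NS k x := hB.ok j0 hj0 x hx0
        have hdeg : 2 ≤ deg k (ty B1 x) :=
          le_trans (hB.ml j0 hj0 x hx0) (deg_mono (fun j hj => hcnt j hj x))
        have hl1 : L1 θ k (ty B x) (ty B1 x) := one.1 θ k B B1 x hns hB.ok hok.ok hrr
        have hab1 : Ab n (FC.ofFIC θ) k (ty B1 x) i :=
          ((trn n (FC.ofFIC θ) k (ty B x) i).1 (ty B1 x) hl1).1 hab
        obtain ⟨P, Q, hPQ, hP⟩ : ∃ P Q : List ℕ, B1 i = P ++ Q ∧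
            (x ∉ B1 i ∨ ∃ P', P = P' ++ [x]) := by
          by_cases hm : x ∈ B1 i
          · obtain ⟨P', Q, he⟩ := List.append_of_mem hm
            exact ⟨P' ++ [x], Q, by rw [he]; simp, Or.inr ⟨P', rfl⟩⟩
          · exact ⟨[], B1 i, by simp, Or.inl hm⟩
        have hnew := sat n β θ hβ hle k B1 hok i hik x hns hdeg hab1 P Q hPQ hP
        have hcnt2 : ∀ j c, (B1 j).count c ≤
            ((Function.update B1 i (P ++ (List.replicate (2 * n) x ++ Q))) j).count c := by
          intro j c
          by_cases hj : j = i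
          · subst hj
            rw [Function.update_self, hPQ]
            simp only [List.count_append]
            omega
          · rw [Function.update_of_ne hj]
        have hmem : ∀ j ≤ k, ∀ c ∈ (Function.update B1 i (P ++ (List.replicate (2 * n) x ++ Q))) j,
            c ∈ B1 j ∨ c = x := by
          intro j _ c hcm
          by_cases hj : j = i
          · subst hj
            rw [Function.update_self] at hcm
            rw [hPQ]
            simp only [List.mem_append, List.mem_replicate] at hcm ⊢
            tauto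
          · rw [Function.update_of_ne hj] at hcm
            exact Or.inl hcm
        refine ⟨Function.update B1 i (P ++ (List.replicate (2 * n) x ++ Q)), ⟨?_, ?_⟩, ?_, ?_, ?_, ?_⟩
        · intro j hj c hcm
          rcases hmem j hj c hcm with h | h
          · exact hok.ok j hj c h
          · rw [h]
            exact hns
        · intro j hj c hcm
          rcases hmem j hj c hcm with h | h
          · exact le_trans (hok.ml j hj c h) (deg_mono (fun j' _ => hcnt2 j' c))
          · rw [h]
            exact le_trans hdeg (deg_mono (fun j' _ => hcnt2 j' x))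
        · rintro c ⟨j, hj, hcm⟩
          rcases hmem j hj c hcm with h | h
          · exact hsub c ⟨j, hj, h⟩
          · rw [h]
            exact ⟨j0, hj0, hx0⟩
        · exact θ.trans hrr hnew
        · intro j hj c
          exact le_trans (hcnt j hj c) (hcnt2 j c)
        · intro p hp hpk hpm hpa
          rcases List.mem_cons.1 hp with h | h
          · subst h
            simp only
            rw [Function.update_self]
            simp only [List.count_append, List.count_replicate_self]
            omega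
          · exact le_trans (hL p h hpk hpm hpa) (hcnt2 p.2 p.1)
      · refine ⟨B1, hok, hsub, hrr, hcnt, ?_⟩
        intro p hp hpk hpm hpa
        rcases List.mem_cons.1 hp with h | h
        · subst h
          by_contra hn
          exact hc ⟨hpk, hpm, hpa, hn⟩
        · exact hL p h hpk hpm hpa
  obtain ⟨B1, hok, hsub, hrr, hcnt, hL⟩ :=
    key (((List.range (k + 1)).flatMap B) ×ˢ (List.range (k + 1)))
  refine ⟨B1, hok, hsub, hrr, hcnt, ?_⟩
  rintro x ⟨j, hj, hx⟩ i hi hab
  refine hL (x, i) ?_ hi ⟨j, hj, hx⟩ hab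
  rw [List.mem_product]
  refine ⟨?_, ?_⟩
  · simp only [List.mem_flatMap, List.mem_range]
    exact ⟨j, by omega, hx⟩
  · simp only [List.mem_range]
    omega

end Pool.Agent.MWHP.H48T
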